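import Mathlib

/-!
# Covering by sets of about half the size

Let `F` be a family of nonempty subsets of `W` of size at least `(1/2 - ε) |W|` such that every `s` elements of `W`
are missed by a common member of `F`. If `ε` is small then `F` has at least `2^(s+1) - 2` members (helper3).
-/

set_option autoImplicit false
set_option linter.all false

open Finset

namespace Pool.Agent.T2h3.EH

variable {α : Type} [DecidableEq α]

/-- every set of at most `s` elements is missed by a member -/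
def Pr (s : ℕ) (W : Finset α) (F : Finset (Finset α)) : Prop :=
  ∀ S, S ⊆ W → S.card ≤ s → ∃ A ∈ F, Disjoint S A

/-- the elements in no member of `F` -/
def Full (W : Finset α) (F : Finset (Finset α)) : Finset α := W.filter fun w => ∀ A ∈ F, w ∉ A

theorem double (W : Finset α) (F : Finset (Finset α)) :
    ∑ w ∈ W, (F.filter fun A => w ∉ A).card = ∑ A ∈ F, (W \ A).card := by
  have e1 : ∀ w ∈ W, (F.filter fun A => w ∉ A).card = ∑ A ∈ F, if w ∉ A then 1 else 0 := by
    intro w _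
    rw [Finset.card_filter]
  have e2 : ∀ A ∈ F, (W \ A).card = ∑ w ∈ W, if w ∉ A then 1 else 0 := by
    intro A _
    rw [← Finset.card_filter]
    congr 1
    ext w
    simp
  rw [Finset.sum_congr rfl e1, Finset.sum_congr rfl e2, Finset.sum_comm]

theorem base (η : ℝ) (hη : 0 < η) (W : Finset α) (F : Finset (Finset α)) (hW : W.Nonempty)
    (hF : ∀ A ∈ F, A ⊆ W) (hne : ∀ A ∈ F, A.Nonempty) (hc : Pr 1 W F)
    (hbig : ∀ A ∈ F, (1 / 2 - η / 2) * (W.card : ℝ) ≤ A.card) :
    2 ^ 2 ≤ F.card + 2 ∧ (F.card + 2 = 2 ^ 2 → ((Full W F).card : ℝ) ≤ η * W.card) := by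
  obtain ⟨w, hw⟩ := hW
  obtain ⟨A, hA, -⟩ := hc {w} (by simpa using hw) (by simp)
  obtain ⟨z, hz⟩ := hne A hA
  obtain ⟨A', hA', hzA'⟩ := hc {z} (by simpa using hF A hA hz) (by simp)
  rw [Finset.disjoint_singleton_left] at hzA'
  have hne' : A ≠ A' := fun h => hzA' (h ▸ hz)
  have h2 : 2 ≤ F.card := by
    rw [← Finset.card_pair hne']
    refine Finset.card_le_card ?_
    intro B hB
    rw [Finset.mem_insert, Finset.mem_singleton] at hB
    rcases hB with rfl | rfl
    · exact hA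
    · exact hA'
  refine ⟨by omega, fun h4 => ?_⟩
  have hF2 : F = {A, A'} := by
    symm
    apply Finset.eq_of_subset_of_card_le
    · intro B hB
      rw [Finset.mem_insert, Finset.mem_singleton] at hB
      rcases hB with rfl | rfl
      · exact hA
      · exact hA'
    · rw [Finset.card_pair hne']
      omega
  have hdis : Disjoint A A' := by
    rw [Finset.disjoint_left]
    intro y hy hy'
    obtain ⟨B, hB, hyB⟩ := hc {y} (by simpa using hF A hA hy) (by simp)
    rw [Finset.disjoint_singleton_left] at hyB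
    rw [hF2, Finset.mem_insert, Finset.mem_singleton] at hB
    rcases hB with rfl | rfl
    · exact hyB hy
    · exact hyB hy'
  have hsub : Full W F ⊆ W \ (A ∪ A') := by
    intro y hy
    obtain ⟨h5, h6⟩ := Finset.mem_filter.1 hy
    rw [Finset.mem_sdiff, Finset.mem_union]
    exact ⟨h5, fun h => h.elim (h6 A hA) (h6 A' hA')⟩
  have h5 : (W \ (A ∪ A')).card + (A ∪ A').card = W.card :=
    Finset.card_sdiff_add_card_eq_card (Finset.union_subset (hF _ hA) (hF _ hA'))
  rw [Finset.card_union_of_disjoint hdis] at h5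
  have h6 : ((Full W F).card : ℝ) ≤ ((W \ (A ∪ A')).card : ℝ) := by
    exact_mod_cast Finset.card_le_card hsub
  have h7 : (((W \ (A ∪ A')).card : ℝ)) + (A.card + A'.card) = W.card := by exact_mod_cast h5
  have h8 := hbig A hA
  have h9 := hbig A' hA'
  linarith

theorem step (s : ℕ) (η : ℝ) (hη : 0 < η) (R : ℕ) (δ : ℝ) (hδ0 : 0 < δ) (hδ1 : δ ≤ 1 / 8)
    (hδ2 : δ ≤ η / 4) (ε : ℝ) (hε : 0 < ε) (hε2 : ε * R ≤ δ)
    (IH : ∀ (W : Finset α) (F : Finset (Finset α)), W.Nonempty → (∀ A ∈ F, A ⊆ W) →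
      (∀ A ∈ F, A.Nonempty) → Pr s W F → (∀ A ∈ F, (1 / 2 - ε) * (W.card : ℝ) ≤ A.card) →
      F.card ≤ R → 2 ^ (s + 1) ≤ F.card + 2 ∧ (F.card + 2 = 2 ^ (s + 1) →
        ((Full W F).card : ℝ) ≤ δ / 2 ^ R * W.card))
    (W : Finset α) (F : Finset (Finset α)) (hW : W.Nonempty) (hF : ∀ A ∈ F, A ⊆ W)
    (hne : ∀ A ∈ F, A.Nonempty) (hc : Pr (s + 1) W F)
    (hbig : ∀ A ∈ F, (1 / 2 - ε) * (W.card : ℝ) ≤ A.card) (hR : F.card ≤ R) :
    2 ^ (s + 2) ≤ F.card + 2 ∧ (F.card + 2 = 2 ^ (s + 2) →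
      ((Full W F).card : ℝ) ≤ η * W.card) := by
  have hv : (0 : ℝ) < W.card := by exact_mod_cast hW.card_pos
  set Fw : α → Finset (Finset α) := fun w => F.filter fun A => w ∉ A with hFw
  have hmem : ∀ w A, A ∈ Fw w ↔ A ∈ F ∧ w ∉ A := fun w A => Finset.mem_filter
  have hIH : ∀ w ∈ W, 2 ^ (s + 1) ≤ (Fw w).card + 2 ∧ ((Fw w).card + 2 = 2 ^ (s + 1) →
        ((Full W (Fw w)).card : ℝ) ≤ δ / 2 ^ R * W.card) := by
    intro w hw
    refine IH W (Fw w) hW (fun A hA => hF A ((hmem w A).1 hA).1)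
      (fun A hA => hne A ((hmem w A).1 hA).1) ?_ (fun A hA => hbig A ((hmem w A).1 hA).1)
      ((Finset.card_filter_le _ _).trans hR)
    intro S hS hSc
    obtain ⟨A, hA, hdis⟩ := hc (insert w S) (Finset.insert_subset hw hS)
      ((Finset.card_insert_le _ _).trans (by omega))
    rw [Finset.disjoint_insert_left] at hdis
    exact ⟨A, (hmem w A).2 ⟨hA, hdis.1⟩, hdis.2⟩
  set D : Finset α := W.filter fun w => (Fw w).card + 2 = 2 ^ (s + 1) with hD
  have hDsub : D ⊆ (F.powerset.filter fun B => ((Full W B).card : ℝ) ≤ δ / 2 ^ R * W.card).biUnion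
      (Full W) := by
    intro w hw
    obtain ⟨hwW, hw2⟩ := Finset.mem_filter.1 hw
    rw [Finset.mem_biUnion]
    refine ⟨Fw w, Finset.mem_filter.2 ⟨Finset.mem_powerset.2 (Finset.filter_subset _ _),
      (hIH w hwW).2 hw2⟩, ?_⟩
    exact Finset.mem_filter.2 ⟨hwW, fun A hA => ((hmem w A).1 hA).2⟩
  have hDcard : (D.card : ℝ) ≤ δ * W.card := by
    have h1 : (D.card : ℝ) ≤ ∑ B ∈ F.powerset.filter
        (fun B => ((Full W B).card : ℝ) ≤ δ / 2 ^ R * W.card), ((Full W B).card : ℝ) := by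
      exact_mod_cast (Finset.card_le_card hDsub).trans Finset.card_biUnion_le
    have h2 : ∑ B ∈ F.powerset.filter
        (fun B => ((Full W B).card : ℝ) ≤ δ / 2 ^ R * W.card), ((Full W B).card : ℝ) ≤
        (F.powerset.filter (fun B => ((Full W B).card : ℝ) ≤ δ / 2 ^ R * W.card)).card •
          (δ / 2 ^ R * W.card) :=
      Finset.sum_le_card_nsmul _ _ _ fun B hB => (Finset.mem_filter.1 hB).2
    have h3 : ((F.powerset.filter
        (fun B => ((Full W B).card : ℝ) ≤ δ / 2 ^ R * W.card)).card : ℝ) ≤ 2 ^ R := by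
      have h4 : (F.powerset.filter
        (fun B => ((Full W B).card : ℝ) ≤ δ / 2 ^ R * W.card)).card ≤ 2 ^ R := by
        refine (Finset.card_filter_le _ _).trans ?_
        rw [Finset.card_powerset]
        exact Nat.pow_le_pow_right (by norm_num) hR
      exact_mod_cast h4
    rw [nsmul_eq_mul] at h2
    have h4 : ((F.powerset.filter
        (fun B => ((Full W B).card : ℝ) ≤ δ / 2 ^ R * W.card)).card : ℝ) *
        (δ / 2 ^ R * W.card) ≤ 2 ^ R * (δ / 2 ^ R * W.card) :=
      mul_le_mul_of_nonneg_right h3 (by positivity)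
    have h5 : (2 : ℝ) ^ R * (δ / 2 ^ R * W.card) = δ * W.card := by
      field_simp
    linarith
  -- double counting
  have h8 := double W F
  have hup : (∑ A ∈ F, ((W \ A).card : ℝ)) ≤ F.card * (1 / 2 * W.card) + δ * W.card := by
    have e1 : ∑ A ∈ F, ((W \ A).card : ℝ) ≤ F.card • ((1 / 2 + ε) * W.card) := by
      refine Finset.sum_le_card_nsmul _ _ _ fun A hA => ?_
      have h5 : (W \ A).card + A.card = W.card := Finset.card_sdiff_add_card_eq_card (hF _ hA)
      have h6 : ((W \ A).card : ℝ) + A.card = W.card := by exact_mod_cast h5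
      have h7 := hbig _ hA
      linarith
    rw [nsmul_eq_mul] at e1
    have e2 : (F.card : ℝ) * ε ≤ δ := by
      have : (F.card : ℝ) ≤ R := by exact_mod_cast hR
      nlinarith
    have e3 : (F.card : ℝ) * ε * W.card ≤ δ * W.card := mul_le_mul_of_nonneg_right e2 hv.le
    linarith
  have h8' : (∑ w ∈ W, ((Fw w).card : ℝ)) = ∑ A ∈ F, ((W \ A).card : ℝ) := by exact_mod_cast h8
  set G : ℝ := 2 ^ (s + 1) - 1 with hG
  have hG1 : 1 ≤ G := by
    have : (2 : ℝ) ≤ 2 ^ (s + 1) := by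
      rw [pow_succ]
      have := one_le_pow₀ (M₀ := ℝ) (a := 2) (n := s) (by norm_num)
      linarith
    rw [hG]
    linarith
  have hDsum : (D.card : ℝ) = ∑ w ∈ W, if (Fw w).card + 2 = 2 ^ (s + 1) then (1 : ℝ) else 0 := by
    rw [hD, Finset.card_filter]
    push_cast
    rfl
  have hdeg : ∀ w ∈ W, G - (if (Fw w).card + 2 = 2 ^ (s + 1) then (1 : ℝ) else 0) ≤ (Fw w).card := by
    intro w hw
    have h1 := (hIH w hw).1
    split_ifs with h2
    · have h3 : (((Fw w).card : ℝ)) + 2 = 2 ^ (s + 1) := by exact_mod_cast h2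
      rw [hG]
      linarith
    · have h3 : 2 ^ (s + 1) + 1 ≤ (Fw w).card + 2 := by omega
      have h4 : (2 : ℝ) ^ (s + 1) + 1 ≤ ((Fw w).card : ℝ) + 2 := by exact_mod_cast h3
      rw [hG]
      linarith
  refine ⟨?_, fun hEq => ?_⟩
  · by_contra hlt
    push Not at hlt
    have h1 : (F.card : ℝ) + 3 ≤ 2 ^ (s + 2) := by exact_mod_cast hlt
    have h2 : (2 : ℝ) ^ (s + 2) = 2 * (G + 1) := by
      rw [hG]
      ring
    have h3 := Finset.sum_le_sum hdeg
    rw [Finset.sum_sub_distrib, ← hDsum, Finset.sum_const, nsmul_eq_mul, h8'] at h3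
    have h4 : (F.card : ℝ) * (1 / 2 * W.card) ≤ (2 * (G + 1) - 3) * (1 / 2 * W.card) :=
      mul_le_mul_of_nonneg_right (by linarith) (by positivity)
    have h5 : δ * W.card ≤ 1 / 8 * W.card := mul_le_mul_of_nonneg_right hδ1 hv.le
    nlinarith
  · have h1 : (F.card : ℝ) + 2 = 2 ^ (s + 2) := by exact_mod_cast hEq
    have h2 : (2 : ℝ) ^ (s + 2) = 2 * (G + 1) := by
      rw [hG]
      ring
    have hFull : ((Full W F).card : ℝ) = ∑ w ∈ W, if ∀ A ∈ F, w ∉ A then (1 : ℝ) else 0 := by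
      unfold Full
      rw [Finset.card_filter]
      push_cast
      rfl
    have hdeg2 : ∀ w ∈ W, G - (if (Fw w).card + 2 = 2 ^ (s + 1) then (1 : ℝ) else 0) +
        G * (if ∀ A ∈ F, w ∉ A then (1 : ℝ) else 0) ≤ (Fw w).card := by
      intro w hw
      by_cases h3 : ∀ A ∈ F, w ∉ A
      · rw [if_pos h3]
        have h4 : Fw w = F := Finset.filter_true_of_mem h3
        rw [h4]
        have h5 : (0 : ℝ) ≤ if F.card + 2 = 2 ^ (s + 1) then (1 : ℝ) else 0 := by
          split_ifs <;> norm_num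
        linarith
      · rw [if_neg h3, mul_zero, add_zero]
        exact hdeg w hw
    have h3 := Finset.sum_le_sum hdeg2
    rw [Finset.sum_add_distrib, Finset.sum_sub_distrib, ← hDsum, ← Finset.mul_sum, ← hFull,
      Finset.sum_const, nsmul_eq_mul, h8'] at h3
    have h4 : (F.card : ℝ) = 2 * G := by linarith
    rw [h4] at hup
    have h5 : δ * W.card ≤ η / 4 * W.card := mul_le_mul_of_nonneg_right hδ2 hv.le
    have h6 : ((Full W F).card : ℝ) ≤ G * (Full W F).card :=
      le_mul_of_one_le_left (Nat.cast_nonneg _) hG1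
    nlinarith

/-- the covering theorem -/
theorem cover (s : ℕ) (hs : 1 ≤ s) : ∀ (η : ℝ), 0 < η → ∀ R : ℕ, ∃ ε : ℝ, 0 < ε ∧
    ∀ (α : Type) [DecidableEq α] (W : Finset α) (F : Finset (Finset α)), W.Nonempty → (∀ A ∈ F, A ⊆ W) →
      (∀ A ∈ F, A.Nonempty) → Pr s W F → (∀ A ∈ F, (1 / 2 - ε) * (W.card : ℝ) ≤ A.card) →
      F.card ≤ R → 2 ^ (s + 1) ≤ F.card + 2 ∧ (F.card + 2 = 2 ^ (s + 1) →
        ((Full W F).card : ℝ) ≤ η * W.card) := by
  induction s, hs using Nat.le_induction with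
  | base =>
    intro η hη R
    exact ⟨η / 2, by positivity, fun α _ W F hW hF hne hc hbig _ =>
      base η hη W F hW hF hne hc hbig⟩
  | succ s hs ih =>
    intro η hη R
    set δ : ℝ := min (1 / 8) (η / 4) with hδ
    have hδ0 : 0 < δ := lt_min (by norm_num) (by positivity)
    obtain ⟨ε', hε', h'⟩ := ih (δ / 2 ^ R) (by positivity) R
    refine ⟨min ε' (δ / (R + 1)), lt_min hε' (by positivity), ?_⟩
    have h1 : min ε' (δ / (R + 1)) * R ≤ δ := by
      have h2 : min ε' (δ / (R + 1)) ≤ δ / (R + 1) := min_le_right _ _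
      have h3 : min ε' (δ / (R + 1)) * R ≤ δ / (R + 1) * R :=
        mul_le_mul_of_nonneg_right h2 (Nat.cast_nonneg _)
      have h4 : δ / ((R : ℝ) + 1) * R ≤ δ := by
        rw [div_mul_eq_mul_div, div_le_iff₀ (by positivity)]
        nlinarith
      linarith
    intro α _
    refine step s η hη R δ hδ0 (min_le_left _ _) (min_le_right _ _) _
      (lt_min hε' (by positivity)) h1 ?_
    intro W F hW hF hne hc hbig hR
    refine h' α W F hW hF hne hc (fun A hA => ?_) hR
    refine le_trans ?_ (hbig A hA)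
    exact mul_le_mul_of_nonneg_right (by linarith [min_le_left ε' (δ / ((R : ℝ) + 1))])
      (Nat.cast_nonneg _)

end Pool.Agent.T2h3.EH
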