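import Pool.Agent.T2h3.EH.Cov

/-!
# Covering set functions: the main inequality (helper3)
-/

set_option autoImplicit false
set_option linter.all false

open Finset Filter

namespace Pool.Agent.T2h3.EH

/-- the second moment -/
theorem moment {α : Type} [DecidableEq α] (W : Finset α) :
    ∑ A ∈ W.powerset, ((W.card : ℝ) - 2 * (A.card : ℝ)) ^ 2 = (W.card : ℝ) * (2 : ℝ) ^ W.card := by
  induction W using Finset.induction_on with
  | empty => simp
  | insert a W ha ih =>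
    rw [Finset.sum_powerset_insert ha, Finset.card_insert_of_notMem ha, ← Finset.sum_add_distrib]
    have h1 : ∀ A ∈ W.powerset, ((((W.card + 1 : ℕ) : ℝ) - 2 * (A.card : ℝ)) ^ 2 +
        (((W.card + 1 : ℕ) : ℝ) - 2 * ((insert a A).card : ℝ)) ^ 2) =
        2 * ((W.card : ℝ) - 2 * (A.card : ℝ)) ^ 2 + 2 := by
      intro A hA
      have h2 : a ∉ A := fun h => ha (Finset.mem_powerset.1 hA h)
      rw [Finset.card_insert_of_notMem h2]
      push_cast
      ring
    rw [Finset.sum_congr rfl h1, Finset.sum_add_distrib, ← Finset.mul_sum, ih, Finset.sum_const,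
      Finset.card_powerset]
    push_cast
    rw [pow_succ]
    simp only [nsmul_eq_mul]
    push_cast
    ring

/-- the main inequality -/
theorem main_ineq (s : ℕ) (hs : 1 ≤ s) : ∃ C : ℝ, 0 ≤ C ∧ ∀ n m : ℕ, m + s ≤ n →
    ∀ f : Finset (Fin n) → Fin n,
    (∀ Y : Finset (Fin n), m ≤ Y.card → Y.powerset.image f = univ) →
    ((2 : ℝ) ^ (s + 1) - 2) * ((n : ℝ) - 1) ≤ 2 ^ (m + s) * (1 + C / ((m + s : ℕ) : ℝ)) := by
  obtain ⟨ε, hε, hcov⟩ := cover s hs 1 one_pos (2 ^ (s + 1))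
  set G : ℝ := (2 : ℝ) ^ (s + 1) - 2 with hG
  have hG0 : 0 ≤ G := by
    have : (2 : ℝ) ≤ 2 ^ (s + 1) := by
      rw [pow_succ]
      have := one_le_pow₀ (M₀ := ℝ) (a := 2) (n := s) (by norm_num)
      linarith
    rw [hG]
    linarith
  refine ⟨G / (4 * ε ^ 2), by positivity, ?_⟩
  intro n m hn f hf
  obtain ⟨W, -, hW⟩ := Finset.exists_subset_card_eq (s := (univ : Finset (Fin n))) (n := m + s)
    (by rw [Finset.card_univ, Fintype.card_fin]; exact hn)
  set v : ℝ := ((m + s : ℕ) : ℝ) with hv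
  have hv0 : 0 < v := by
    rw [hv]
    exact_mod_cast (show 0 < m + s by omega)
  set F : Fin n → Finset (Finset (Fin n)) := fun x => W.powerset.filter fun A => f A = x with hF
  have hmem : ∀ x A, A ∈ F x ↔ A ⊆ W ∧ f A = x := by
    intro x A
    rw [hF, Finset.mem_filter, Finset.mem_powerset]
  -- one colour
  have h1 : ∀ x ∈ univ.erase (f ∅), G ≤ (F x).card +
      G / (4 * ε ^ 2) / v ^ 2 * ∑ A ∈ F x, (v - 2 * (A.card : ℝ)) ^ 2 := by
    intro x hx
    have hx' : x ≠ f ∅ := Finset.ne_of_mem_erase hx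
    have hV : 0 ≤ ∑ A ∈ F x, (v - 2 * (A.card : ℝ)) ^ 2 :=
      Finset.sum_nonneg fun A _ => sq_nonneg _
    have hV' : 0 ≤ G / (4 * ε ^ 2) / v ^ 2 * ∑ A ∈ F x, (v - 2 * (A.card : ℝ)) ^ 2 := by positivity
    by_cases hcard : (F x).card ≤ 2 ^ (s + 1)
    · by_cases hbig : ∀ A ∈ F x, (1 / 2 - ε) * (W.card : ℝ) ≤ A.card
      · have h6 := (hcov (Fin n) W (F x) (Finset.card_pos.1 (by omega))
          (fun A hA => ((hmem x A).1 hA).1) (fun A hA => by
          rw [Finset.nonempty_iff_ne_empty]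
          rintro rfl
          exact hx' ((hmem x ∅).1 hA).2.symm) (by
          intro S hS hSc
          have h2 : m ≤ (W \ S).card := by
            rw [Finset.card_sdiff_of_subset hS]
            omega
          have h3 : x ∈ (W \ S).powerset.image f := by
            rw [hf _ h2]
            exact Finset.mem_univ _
          obtain ⟨A, hA, hAx⟩ := Finset.mem_image.1 h3
          rw [Finset.mem_powerset] at hA
          refine ⟨A, (hmem x A).2 ⟨hA.trans Finset.sdiff_subset, hAx⟩, ?_⟩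
          exact (Finset.sdiff_disjoint.mono_left hA).symm) hbig hcard).1
        have h7 : (2 : ℝ) ^ (s + 1) ≤ (F x).card + 2 := by exact_mod_cast h6
        linarith
      · push Not at hbig
        obtain ⟨A, hA, hsmall⟩ := hbig
        rw [hW] at hsmall
        have h2 : (v - 2 * (A.card : ℝ)) ^ 2 ≤ ∑ A ∈ F x, (v - 2 * (A.card : ℝ)) ^ 2 :=
          Finset.single_le_sum (f := fun A : Finset (Fin n) => (v - 2 * (A.card : ℝ)) ^ 2)
            (fun A _ => sq_nonneg _) hA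
        have h3 : 2 * ε * v ≤ v - 2 * (A.card : ℝ) := by linarith
        have h4 : (2 * ε * v) ^ 2 ≤ (v - 2 * (A.card : ℝ)) ^ 2 :=
          pow_le_pow_left₀ (by positivity) h3 2
        have h5 : G / (4 * ε ^ 2) / v ^ 2 * (2 * ε * v) ^ 2 = G := by
          field_simp
          ring
        have h6 : G / (4 * ε ^ 2) / v ^ 2 * (2 * ε * v) ^ 2 ≤
            G / (4 * ε ^ 2) / v ^ 2 * ∑ A ∈ F x, (v - 2 * (A.card : ℝ)) ^ 2 :=
          mul_le_mul_of_nonneg_left (h4.trans h2) (by positivity)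
        have h7 : (0 : ℝ) ≤ (F x).card := Nat.cast_nonneg _
        linarith
    · have h7 : (2 : ℝ) ^ (s + 1) ≤ (F x).card := by
        have : 2 ^ (s + 1) ≤ (F x).card := by omega
        exact_mod_cast this
      linarith
  have h2 := Finset.sum_le_sum h1
  rw [Finset.sum_const, Finset.card_erase_of_mem (Finset.mem_univ _), Finset.card_univ,
    Fintype.card_fin, Finset.sum_add_distrib, ← Finset.mul_sum] at h2
  have h3 : ∑ x ∈ univ.erase (f ∅), ((F x).card : ℝ) ≤ (2 : ℝ) ^ (m + s) := by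
    have e1 : ∑ x ∈ univ.erase (f ∅), ((F x).card : ℝ) ≤ ∑ x, ((F x).card : ℝ) :=
      Finset.sum_le_sum_of_subset_of_nonneg (Finset.subset_univ _) fun _ _ _ => by positivity
    have e2 : W.powerset.card = ∑ x, (F x).card :=
      Finset.card_eq_sum_card_fiberwise (f := f) (t := univ) fun _ _ => Finset.mem_univ _
    rw [Finset.card_powerset, hW] at e2
    refine e1.trans (le_of_eq ?_)
    exact_mod_cast e2.symm
  have h4 : ∑ x ∈ univ.erase (f ∅), ∑ A ∈ F x, (v - 2 * (A.card : ℝ)) ^ 2 ≤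
      v * (2 : ℝ) ^ (m + s) := by
    have e1 : ∑ x ∈ univ.erase (f ∅), ∑ A ∈ F x, (v - 2 * (A.card : ℝ)) ^ 2 ≤
        ∑ x, ∑ A ∈ F x, (v - 2 * (A.card : ℝ)) ^ 2 :=
      Finset.sum_le_sum_of_subset_of_nonneg (Finset.subset_univ _) fun _ _ _ =>
        Finset.sum_nonneg fun _ _ => sq_nonneg _
    have e2 : ∑ x, ∑ A ∈ F x, (v - 2 * (A.card : ℝ)) ^ 2 =
        ∑ A ∈ W.powerset, (v - 2 * (A.card : ℝ)) ^ 2 :=
      Finset.sum_fiberwise_of_maps_to (fun _ _ => Finset.mem_univ _) _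
    have e3 := moment W
    rw [hW, ← hv] at e3
    rw [e2, e3] at e1
    exact e1
  have h5 : (((n - 1 : ℕ) : ℝ)) = (n : ℝ) - 1 := by
    rw [Nat.cast_sub (by omega)]
    norm_num
  rw [nsmul_eq_mul, h5] at h2
  have h6 : G / (4 * ε ^ 2) / v ^ 2 *
      ∑ x ∈ univ.erase (f ∅), ∑ A ∈ F x, (v - 2 * (A.card : ℝ)) ^ 2 ≤
      G / (4 * ε ^ 2) / v ^ 2 * (v * (2 : ℝ) ^ (m + s)) :=
    mul_le_mul_of_nonneg_left h4 (by positivity)
  have h7 : G / (4 * ε ^ 2) / v ^ 2 * (v * (2 : ℝ) ^ (m + s)) =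
      (2 : ℝ) ^ (m + s) * (G / (4 * ε ^ 2) / v) := by
    field_simp
  rw [h7] at h6
  calc G * ((n : ℝ) - 1) = ((n : ℝ) - 1) * G := mul_comm _ _
    _ ≤ 2 ^ (m + s) + 2 ^ (m + s) * (G / (4 * ε ^ 2) / v) := by linarith
    _ = 2 ^ (m + s) * (1 + G / (4 * ε ^ 2) / v) := by ring

end Pool.Agent.T2h3.EH
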